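import Mathlib

/-!
# Fixed points of antimorphisms of regular self-complementary graphs: a counterexample

A regular self-complementary graph `G` on `9 = 4 · 2 + 1` vertices in which every vertex lies in exactly
`2 = 2 (2 - 1)` triangles, but only one vertex is fixed by some isomorphism of `G` onto its complement.
-/

set_option autoImplicit false

namespace Pool.Agent.Results.MP_b6be33_co.Counterexample

/-- the lists of neighbours -/
def nb : Fin 9 → List (Fin 9) :=
  ![[2, 4, 5, 7], [4, 6, 7, 8], [0, 3, 4, 6], [2, 5, 6, 8], [0, 1, 2, 8], [0, 3, 6, 7], [1, 2, 3, 5],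
    [0, 1, 5, 8], [1, 3, 4, 7]]

/-- the graph -/
def G : SimpleGraph (Fin 9) where
  Adj i j := j ∈ nb i
  symm := ⟨by decide⟩
  loopless := ⟨by decide⟩

instance : DecidableRel G.Adj := fun i j => inferInstanceAs (Decidable (j ∈ nb i))

/-- the permutation `(0)(1 2 3 4)(5 6 7 8)` -/
def s : Equiv.Perm (Fin 9) where
  toFun := ![0, 2, 3, 4, 1, 6, 7, 8, 5]
  invFun := ![0, 4, 1, 2, 3, 8, 5, 6, 7]
  left_inv := by decide
  right_inv := by decide

theorem s_iso : ∀ i j : Fin 9, Gᶜ.Adj (s i) (s j) ↔ G.Adj i j := by decide +kernel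

/-- some neighbour of `v` has two common neighbours with `v` -/
def Q (H : SimpleGraph (Fin 9)) (v : Fin 9) : Prop :=
  ∃ u a b, H.Adj v u ∧ H.Adj v a ∧ H.Adj v b ∧ a ≠ b ∧ H.Adj u a ∧ H.Adj u b

instance (H : SimpleGraph (Fin 9)) [DecidableRel H.Adj] (v : Fin 9) : Decidable (Q H v) := by
  unfold Q
  infer_instance

theorem Q_of {H K : SimpleGraph (Fin 9)} (P : H ≃g K) (v : Fin 9) (h : P v = v) (hQ : Q H v) : Q K v := by
  obtain ⟨u, a, b, h1, h2, h3, h4, h5, h6⟩ := hQ
  have e : ∀ x y, H.Adj x y → K.Adj (P x) (P y) := fun x y hxy => P.map_adj_iff.2 hxy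
  have k1 := e _ _ h1
  have k2 := e _ _ h2
  have k3 := e _ _ h3
  rw [h] at k1 k2 k3
  exact ⟨P u, P a, P b, k1, k2, k3, fun hh => h4 (P.injective hh), e _ _ h5, e _ _ h6⟩

theorem Q_ne : ∀ v : Fin 9, v ≠ 0 → ¬ (Q G v ↔ Q Gᶜ v) := by decide +kernel

theorem fixed (P : G ≃g Gᶜ) (v : Fin 9) (h : P v = v) : v = 0 := by
  by_contra h0
  refine Q_ne v h0 ⟨Q_of P v h, Q_of P.symm v ?_⟩
  rw [RelIso.symm_apply_eq, h]

/-- **A counterexample**: a regular self-complementary graph on `4 k + 1` vertices, `k = 2`, in which every vertex lies in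
exactly `k (k - 1)` triangles, and exactly one vertex is fixed by some isomorphism from the graph onto its complement; so
there is a vertex in exactly `k (k - 1)` triangles which is fixed by no such isomorphism. -/
theorem result : ∃ (k : ℕ) (G : SimpleGraph (Fin (4 * k + 1))) (_ : DecidableRel G.Adj), k = 2 ∧
    G.IsRegularOfDegree (2 * k) ∧ Nonempty (G ≃g Gᶜ) ∧
    (∀ v, ((G.cliqueFinset 3).filter fun t => v ∈ t).card = k * (k - 1)) ∧
    {v | ∃ P : G ≃g Gᶜ, P v = v} = {0} ∧
    ∃ v, ((G.cliqueFinset 3).filter fun t => v ∈ t).card = k * (k - 1) ∧ ∀ P : G ≃g Gᶜ, P v ≠ v := by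
  refine ⟨2, G, inferInstance, rfl, ?_, ⟨⟨s, fun {i j} => s_iso i j⟩⟩, ?_, ?_,
    ⟨(1 : Fin 9), by decide +kernel, fun P h => absurd (fixed P 1 h) (by decide)⟩⟩
  · intro v
    revert v
    decide +kernel
  · decide +kernel
  · ext v
    refine ⟨fun ⟨P, hP⟩ => fixed P v hP, fun h => ?_⟩
    rw [Set.mem_singleton_iff] at h
    subst h
    exact ⟨⟨s, fun {i j} => s_iso i j⟩, rfl⟩

end Pool.Agent.Results.MP_b6be33_co.Counterexample
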